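import Pool.Agent.H.MP_9f00ad_co.E

namespace Pool.Agent.Results.MP_9f00ad_co.No

open Set Matroid Pool.Agent.H.MP_9f00ad_co

def IsLinked (D : ℕ → ℕ → Prop) (X Y : Set ℕ) : Prop :=
  ∃ P : Set (List ℕ), (∀ p ∈ P, p ≠ [] ∧ p.Nodup ∧ p.IsChain D) ∧
    (∀ p ∈ P, ∀ q ∈ P, p ≠ q → p.Disjoint q) ∧
    X = {x | ∃ p ∈ P, p.head? = some x} ∧ Y = {y | ∃ p ∈ P, p.getLast? = some y}

def Complete (C : Set (Matroid ℕ)) : Prop :=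
  (∀ M ∈ C, ∀ (f : ℕ → ℕ) (hf : InjOn f M.E), M.map f hf ∈ C) ∧
  (∀ M ∈ C, ∀ A ⊆ M.E, M ↾ A ∈ C) ∧
  (∀ M ∈ C, ∀ A ⊆ M.E, M ／ A ∈ C) ∧
  (∀ M ∈ C, M✶ ∈ C) ∧
  (∀ M ∈ C, ∀ N ∈ C, ∀ h : Disjoint M.E N.E, M.disjointSum N h ∈ C) ∧
  (∀ M ∈ C, ∀ (k : ℕ) (N : Matroid ℕ), (k : ℕ∞) ≤ M.eRank → N.E = M.E →
    (∀ I, N.Indep I ↔ M.Indep I ∧ I.encard ≤ k) → N ∈ C) ∧
  (∀ M ∈ C, ∀ (T : Set ℕ) (D : ℕ → ℕ → Prop) (N : Matroid ℕ), T.Finite →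
    (∀ u v, D u v → u ∈ T ∧ v ∈ T) → M.E ⊆ T → N.E ⊆ T →
    (∀ X, N.Indep X ↔ X ⊆ N.E ∧ ∃ Y, M.Indep Y ∧ IsLinked D X Y) → N ∈ C)

def SBO (M : Matroid ℕ) : Prop :=
  ∀ B₁ B₂, M.IsBase B₁ → M.IsBase B₂ →
    ∃ φ : ℕ → ℕ, BijOn φ B₁ B₂ ∧ ∀ X ⊆ B₁, M.IsBase (B₁ \ X ∪ φ '' X)

def BO (M : Matroid ℕ) : Prop :=
  ∀ B₁ B₂, M.IsBase B₁ → M.IsBase B₂ →
    ∃ φ : ℕ → ℕ, BijOn φ B₁ B₂ ∧ ∀ X ⊆ B₁, X.ncard = 1 ∨ X.ncard + 1 = B₁.ncard →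
      M.IsBase (B₁ \ X ∪ φ '' X)

theorem result (F : Set (Matroid ℕ)) (hF : F.Finite) (hE : ∀ M ∈ F, M.E.Finite) :
    ∃ M : Matroid ℕ, M.E.Finite ∧ SBO M ∧ BO M ∧ M ∉ ⋂₀ {C | Complete C ∧ F ⊆ C} := by
  obtain ⟨k0, hk0⟩ := (hF.image fun M => M.E.ncard).bddAbove
  have hk : 2 ≤ k0 + 2 := by omega
  refine ⟨mat (10 * (k0 + 2) + 1), finite_Iio _, fun _ _ => mat_sbo, fun _ _ h1 h2 =>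
    (mat_sbo h1 h2).imp fun φ h => ⟨h.1, fun X hX _ => h.2 X hX⟩, fun h => not_good (k0 + 2) ?_⟩
  exact h {M | Good (k0 + 2) M} ⟨⟨fun M h f hf => h.map f hf, fun M h A hA => h.restrict hA,
    fun M h A _ => h.contract hk A, fun M h => h.dual hk, fun M h N h' hd => h.sum h' hd,
    fun M h t N _ h1 h2 => h.trunc hk t h1 h2,
    fun M h T D N h1 h2 _ h3 h4 => h.induce hk h1 h2 h3 h4⟩,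
    fun M hM => good_small (hE M hM) ((hk0 ⟨M, hM, rfl⟩).trans (by omega))⟩

end Pool.Agent.Results.MP_9f00ad_co.No
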